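import Pool.Agent.Helper70.MM.Goals

/-!
Project MM (MP_91ee6f_gt): measure of a cap of the unit sphere (packet SPH4).
-/

open MeasureTheory Set Metric
open scoped ENNReal RealInnerProductSpace Topology Pointwise
open Pool.Agent.Results.MP_91ee6f_gt
open Pool.Agent.Helper70.MM

namespace Pool.Agent.Helper15.MM

/-- The ball with centre `(4/5) x` and radius `1/5` lies in the cone over the cap. -/
lemma ball_sub (n : ℕ) (x : En n) (hx : ‖x‖ = 1) :
    ball ((4 / 5 : ℝ) • x) (1 / 5) ⊆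
      Ioo (0 : ℝ) 1 • ((↑) '' {θ : sphere (0 : En n) 1 | (θ : En n) ∈ closedBall x (1 / 2)}) := by
  intro z hz
  rw [mem_ball, dist_eq_norm] at hz
  have h45 : ‖(4 / 5 : ℝ) • x‖ = 4 / 5 := by
    rw [norm_smul, hx, Real.norm_eq_abs, abs_of_pos (by norm_num)]; norm_num
  have hlo : 3 / 5 < ‖z‖ := by
    have h := norm_sub_norm_le ((4 / 5 : ℝ) • x) z
    rw [norm_sub_rev] at h
    linarith
  have hhi : ‖z‖ < 1 := by
    have h := norm_sub_norm_le z ((4 / 5 : ℝ) • x)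
    linarith
  have hz0 : 0 < ‖z‖ := by linarith
  have hn : ‖(‖z‖⁻¹ : ℝ) • z‖ = 1 := by
    rw [norm_smul, norm_inv, norm_norm]
    exact inv_mul_cancel₀ hz0.ne'
  refine ⟨‖z‖, ⟨hz0, hhi⟩, (‖z‖⁻¹ : ℝ) • z, ⟨⟨(‖z‖⁻¹ : ℝ) • z, by simpa using hn⟩, ?_, rfl⟩, ?_⟩
  · rw [mem_setOf_eq, mem_closedBall, dist_eq_norm]
    have e1 : (‖z‖⁻¹ : ℝ) • z - x = (‖z‖⁻¹ - 5 / 4 : ℝ) • z + (5 / 4 : ℝ) • (z - (4 / 5 : ℝ) • x) := by
      rw [smul_sub, smul_smul, sub_smul]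
      norm_num
    have h1 : ‖(‖z‖⁻¹ - 5 / 4 : ℝ) • z‖ ≤ 1 / 4 := by
      rw [norm_smul, Real.norm_eq_abs]
      have e2 : |‖z‖⁻¹ - 5 / 4| * ‖z‖ = |1 - 5 / 4 * ‖z‖| := by
        have : |‖z‖| = ‖z‖ := abs_of_pos hz0
        calc |‖z‖⁻¹ - 5 / 4| * ‖z‖ = |‖z‖⁻¹ - 5 / 4| * |‖z‖| := by rw [this]
          _ = |(‖z‖⁻¹ - 5 / 4) * ‖z‖| := (abs_mul _ _).symm
          _ = |1 - 5 / 4 * ‖z‖| := by
            congr 1
            rw [sub_mul, inv_mul_cancel₀ hz0.ne']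
      rw [e2, abs_le]
      constructor <;> linarith
    have h2 : ‖(5 / 4 : ℝ) • (z - (4 / 5 : ℝ) • x)‖ ≤ 1 / 4 := by
      rw [norm_smul, Real.norm_eq_abs, abs_of_pos (by norm_num)]
      linarith
    rw [e1]
    have h3 := norm_add_le ((‖z‖⁻¹ - 5 / 4 : ℝ) • z) ((5 / 4 : ℝ) • (z - (4 / 5 : ℝ) • x))
    linarith
  · change ‖z‖ • (‖z‖⁻¹ : ℝ) • z = z
    rw [smul_smul, mul_inv_cancel₀ hz0.ne', one_smul]

theorem sph4 : SPH4 := by
  intro n hn x hx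
  have hne : Nonempty (Fin n) := ⟨⟨0, hn⟩⟩
  have hmeas : MeasurableSet {θ : sphere (0 : En n) 1 | (θ : En n) ∈ closedBall x (1 / 2)} :=
    (isClosed_closedBall.measurableSet).preimage measurable_subtype_coe
  have hdim : (Module.finrank ℝ (En n) : ℝ≥0∞) ≠ 0 := by
    rw [finrank_euclideanSpace_fin]
    exact_mod_cast (by omega : n ≠ 0)
  have hdim' : (Module.finrank ℝ (En n) : ℝ≥0∞) ≠ ⊤ := ENNReal.natCast_ne_top _
  have hb0 : (volume : Measure (En n)) (ball 0 1) ≠ 0 := (isOpen_ball.measure_pos _ (by simp)).ne'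
  have hb1 : (volume : Measure (En n)) (ball 0 1) ≠ ⊤ := measure_ball_lt_top.ne
  have h1 : (sphUnif n 1) (closedBall x (1 / 2)) =
      ((Module.finrank ℝ (En n) : ℝ≥0∞) * (volume : Measure (En n)) (ball 0 1))⁻¹ *
        ((Module.finrank ℝ (En n) : ℝ≥0∞) * (volume : Measure (En n)) (Ioo (0 : ℝ) 1 • ((↑) ''
          {θ : sphere (0 : En n) 1 | (θ : En n) ∈ closedBall x (1 / 2)}))) := by
    unfold sphUnif
    rw [Measure.smul_apply, smul_eq_mul, Measure.toSphere_apply_univ,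
      Measure.map_apply (by fun_prop) isClosed_closedBall.measurableSet]
    congr 1
    have e : (fun θ : sphere (0 : En n) 1 => (1 : ℝ) • (θ : En n)) ⁻¹' closedBall x (1 / 2) =
        {θ : sphere (0 : En n) 1 | (θ : En n) ∈ closedBall x (1 / 2)} := by
      ext θ
      simp
    rw [e, Measure.toSphere_apply' _ hmeas]
  rw [h1]
  have h2 : ENNReal.ofReal ((1 / 5 : ℝ) ^ n) * (volume : Measure (En n)) (ball 0 1) ≤
      (volume : Measure (En n)) (Ioo (0 : ℝ) 1 • ((↑) ''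
          {θ : sphere (0 : En n) 1 | (θ : En n) ∈ closedBall x (1 / 2)})) := by
    refine le_trans (le_of_eq ?_) (measure_mono (ball_sub n x hx))
    rw [Measure.addHaar_ball _ _ (by norm_num : (0 : ℝ) ≤ 1 / 5), finrank_euclideanSpace_fin]
  rw [← ENNReal.div_eq_inv_mul, ENNReal.mul_div_mul_left _ _ hdim hdim',
    ENNReal.le_div_iff_mul_le (Or.inl hb0) (Or.inl hb1)]
  exact h2

end Pool.Agent.Helper15.MM
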